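import Pool.Agent.Lib.MP_87d05f_lc.ND.Stm2
import Pool.Agent.Lib.MP_87d05f_lc.ND.P.inst
import Pool.Agent.Lib.MP_87d05f_lc.ND.P.conv

set_option autoImplicit false

/-!
Project ND, part 2, piece ansA: the answers of the payoff machine at the leaves.
-/

namespace Pool.Agent.Lib.MP_87d05f_lc.ND

open Pool.Agent.PolyTime Function Turing

/-- alignment of the values -/
private theorem ansA2_disV (β : ℕ → Wd → Bool) (F : List (ℕ × (ℕ × List Wd))) :
    disV F (F.flatMap (fun r => r.2.2.map (β r.1))) = F.map (fun r => (r, r.2.2.map (β r.1))) := by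
  induction F with
  | nil => rfl
  | cons r F ih =>
    rw [List.flatMap_cons, disV, List.map_cons, List.take_left' (by simp),
      List.drop_left' (by simp), ih]

private theorem ansA2_fstZ (β : ℕ → Wd → Bool) (j : ℕ) (K : List (ℕ × List Wd)) :
    fstZ j ((K.map (fun c => (j, c))).map (fun r => (r, r.2.2.map (β r.1)))) = fst0 K (β j) := by
  induction K with
  | nil => rfl
  | cons c K ih =>
    unfold fstZ fst0 at ih ⊢
    rw [List.map_cons, List.map_cons, List.filter_cons, List.filter_cons]
    by_cases h : vio c.1 (c.2.map (β j)) = true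
    · simp only [h, decide_true, Bool.and_true, if_true, List.map_cons, ih]
      rfl
    · have h' : vio c.1 (c.2.map (β j)) = false := by simpa using h
      simp only [h', decide_true, Bool.and_false, Bool.false_eq_true, if_false, ih]

private theorem ansA2_places (M : ℕ) (F : List (Con (arD M))) :
    (F.flatMap (fun c => List.ofFn c.2)).length ≤ (M + 1) * F.length := by
  induction F with
  | nil => simp
  | cons c F ih =>
    rw [List.flatMap_cons, List.length_append, List.length_ofFn, List.length_cons, Nat.mul_add]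
    have : arD M c.1 ≤ M + 1 := by
      unfold arD
      have := c.1.2
      split_ifs <;> omega
    omega

/-- every assignment of the words is given by an assignment of the variables -/
private theorem ansA2_lift (β : Wd → Bool) : ∃ a : ℕ → Fin 2, ∀ j w,
    decide (a (unbits (nb w j)) = 1) = β w := by
  classical
  refine ⟨fun n => if ∃ j w, unbits (nb w j) = n ∧ β w = true then 1 else 0, fun j w => ?_⟩
  have h1 : (∃ j' w', unbits (nb w' j') = unbits (nb w j) ∧ β w' = true) ↔ β w = true := by
    constructor
    · rintro ⟨j', w', h2, h3⟩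
      have h4 := congrArg Nat.bits h2
      rw [inst_bits, inst_bits] at h4
      obtain ⟨h5, _⟩ := nb_inj h4
      rw [← h5]
      exact h3
    · intro h2
      exact ⟨j, w, rfl, h2⟩
  change decide ((if ∃ j' w', unbits (nb w' j') = unbits (nb w j) ∧ β w' = true then
    (1 : Fin 2) else 0) = 1) = β w
  by_cases h2 : β w = true
  · rw [if_pos (h1.2 h2), h2]
    decide
  · rw [if_neg (fun h => h2 (h1.1 h))]
    simp only [Bool.not_eq_true] at h2
    rw [h2]
    decide

private theorem ansA2_arith {V V' c c' N p q : ℕ} (hq : 0 < q) (h1 : V + c = N)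
    (h2 : V' + c' = N) (h3 : (1 - (p : ℚ) / ((q : ℕ) : ℚ)) * ((V' : ℕ) : ℚ) ≤ ((V : ℕ) : ℚ)) :
    q * c ≤ q * c' + p * N := by
  have hq' : (0 : ℚ) < (q : ℚ) := by exact_mod_cast hq
  have h4 : (q : ℚ) * V' ≤ q * V + p * V' := by
    have h5 := mul_le_mul_of_nonneg_left h3 hq'.le
    have h6 : (q : ℚ) * ((1 - (p : ℚ) / ((q : ℕ) : ℚ)) * ((V' : ℕ) : ℚ)) =
        q * V' - p * V' := by
      field_simp
    rw [h6] at h5
    linarith
  have h5 : q * V' ≤ q * V + p * V' := by exact_mod_cast h4
  have h6 : q * V + q * c = q * N := by rw [← Nat.mul_add, h1]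
  have h7 : q * V' + q * c' = q * N := by rw [← Nat.mul_add, h2]
  have h8 : p * V' ≤ p * N := Nat.mul_le_mul_left _ (by omega)
  omega

theorem q_ansA : S_ansA := by
  intro hleaf k M p q e s hk hM hp hpq he hs hn
  obtain ⟨_, h2, h3, h4⟩ := hleaf k M e s hk hM he hs hn
  have hgood : ∀ r ∈ insA e s, instG k r := by
    intro r hr
    unfold insA at hr
    obtain ⟨c, hc, rfl⟩ := List.mem_map.1 hr
    rcases h2 c hc with ⟨h5, h6⟩ | ⟨h5, h6, h7⟩
    · refine ⟨?_, ?_⟩
      · change c.1 ≤ k
        omega
      · change c.2.length = if c.1 = 0 then 1 else c.1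
        rw [if_pos h5, h6]
    · refine ⟨h7, ?_⟩
      change c.2.length = if c.1 = 0 then 1 else c.1
      rw [if_neg (by omega), h5]
  refine ⟨(insA e s).map (instC k), ?_, List.length_map _, ?_⟩
  · rw [codeC_eq, List.map_map]
    congr 1
    exact List.map_congr_left fun r hr => inst_word (hgood r hr)
  rintro w ⟨α, rfl, hα⟩
  obtain ⟨h5, h6⟩ := p_conv _ _ ((insA e s).map (instC k)) α
  obtain ⟨β, hβ⟩ : ∃ β : ℕ → Wd → Bool, β = fun j v => decide (α (unbits (nb v j)) = 1) :=
    ⟨_, rfl⟩
  have h7 : convV (outW ((insA e s).map (instC k)) α) =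
      (insA e s).flatMap (fun r => r.2.2.map (β r.1)) := by
    rw [h5, List.flatMap_map, hβ]
    refine List.flatMap_congr fun r hr => ?_
    rw [inst_ofFn (hgood r hr), List.map_map]
    rfl
  have h8 : candA e (some (Sum.inl s)) (outW ((insA e s).map (instC k)) α) =
      ded (fst0 (consA e s) (β 0)) := by
    change ded (fstZ 0 (disV (insA e s) (convV _))) = _
    rw [h7, ansA2_disV]
    congr 1
    exact ansA2_fstZ β 0 (consA e s)
  have hcnt : ∀ b : ℕ → Wd → Bool, (insA e s).countP (fun r => vio r.2.1 (r.2.2.map (b r.1))) =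
      (consA e s).countP (fun c => vio c.1 (c.2.map (b 0))) := by
    intro b
    unfold insA
    rw [List.countP_map]
    rfl
  have hval : ∀ a : ℕ → Fin 2, valC (phiD k) a ((insA e s).map (instC k)) +
      (consA e s).countP (fun c => vio c.1 (c.2.map (fun v => decide (a (unbits (nb v 0)) = 1)))) =
        (insA e s).length := by
    intro a
    have h9 := inst_val a _ hgood
    rw [← hcnt (fun j v => decide (a (unbits (nb v j)) = 1))]
    exact h9
  rw [h8]
  refine ⟨?_, (h3 (β 0)).1, ?_⟩
  · refine h6.trans (Nat.mul_le_mul_left _ ?_)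
    have h9 := ansA2_places k ((insA e s).map (instC k))
    rwa [List.length_map] at h9
  · intro a ha1 ha2
    obtain ⟨α', hα'⟩ := ansA2_lift (fun v => !(a v))
    have h9 := h4 a ha1 ha2
    have h10 := hval α
    have h11 := hval α'
    have h12 : (fun v => decide (α' (unbits (nb v 0)) = 1)) = fun v => !(a v) :=
      funext fun v => hα' 0 v
    have h13 : (fun v => decide (α (unbits (nb v 0)) = 1)) = β 0 := by rw [hβ]
    rw [h12] at h11
    rw [h13] at h10
    have h14 := ansA2_arith (by omega) h10 h11 (hα α')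
    calc q * (ded (fst0 (consA e s) (β 0))).length
        ≤ q * (consA e s).countP (fun c => vio c.1 (c.2.map (β 0))) :=
          Nat.mul_le_mul_left _ (h3 (β 0)).2
      _ ≤ q * (consA e s).countP (fun c => vio c.1 (c.2.map (fun v => !(a v)))) +
          p * (insA e s).length := h14
      _ ≤ q * ((ded e.1).filter a).length + p * (insA e s).length :=
          Nat.add_le_add_right (Nat.mul_le_mul_left _ h9) _

end Pool.Agent.Lib.MP_87d05f_lc.ND
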