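import Pool.Agent.Lib.MP_87d05f_lc.ND.Stm2

set_option autoImplicit false

/-!
# Vertex deletion on all graphs: the sparsification tree has a leaf satisfied by a given solution
-/

namespace Pool.Agent.Lib.MP_87d05f_lc.ND

open Pool.Agent.PolyTime Function Turing

theorem q_ipz : S_ipz := by
  intro k M B C d b' e hk hM he a ha
  have hsat := he.sat a ha
  have key : ∀ (m : ℕ) (s : KNd Wd), KPot k M e.2.2 s ≤ m → KOk k M e.2.2 s →
      (∀ S ∈ s, ∃ l ∈ S, tr a l) →
      ∃ u : KNd Wd, Rch (expA k M B C d b' e) (some (Sum.inl s)) (some (Sum.inl u)) ∧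
        krc M e.2.2 u k = none ∧ KOk k M e.2.2 u ∧ ∀ S ∈ u, ∃ l ∈ S, tr a l := by
    intro m
    induction m with
    | zero =>
      intro s hm hs hS
      rcases krc_ok hk hM he.wf hs with ⟨h1, _⟩ | ⟨l, r, _, _, _, h1, _⟩
      · exact ⟨s, Rch.refl _, h1, hs, hS⟩
      · omega
    | succ m ih =>
      intro s hm hs hS
      rcases krc_ok hk hM he.wf hs with ⟨h1, _⟩ | ⟨l, r, h1, h2, h3, h4, h5⟩
      · exact ⟨s, Rch.refl _, h1, hs, hS⟩
      · have hex : expA k M B C d b' e (some (Sum.inl s)) =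
            Sum.inr (some (Sum.inl l), some (Sum.inl r)) := by
          unfold expA
          simp only [Sum.elim_inl]
          rw [h1]
        have hM1 : 1 ≤ M ^ (k - 1) := Nat.one_le_pow _ _ hM
        rcases krc_sat hsat hS h1 with h6 | h6
        · obtain ⟨u, hu, hu'⟩ := ih l (by omega) h2 h6
          exact ⟨u, Rch.left hex hu, hu'⟩
        · obtain ⟨u, hu, hu'⟩ := ih r (by omega) h3 h6
          exact ⟨u, Rch.right hex hu, hu'⟩
  exact key _ [] le_rfl (kok_nil k M e.2.2) (fun S hS => absurd hS List.not_mem_nil)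

end Pool.Agent.Lib.MP_87d05f_lc.ND
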