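import Pool.Agent.Lib.MP_87d05f_lc.ND.Stm2

set_option autoImplicit false

/-!
# Vertex deletion on all graphs, piece leafA: the constraints at a leaf
-/

namespace Pool.Agent.Lib.MP_87d05f_lc.ND

open Pool.Agent.PolyTime Function Turing

private theorem leafA2_ne {k M : ℕ} {e : EnvA} {s : KNd Wd} (he : EOk k e)
    (hs : KOk k M e.2.2 s) {c : List (Lit Wd)} (hc : c ∈ e.2.2.1) : ktcl s c ≠ [] := by
  rcases ktcl_cases s c with ⟨S, hS, _, h⟩ | ⟨_, h⟩
  · rw [h]
    intro h0
    have h1 := Finset.card_pos.2 (hs.inv.ne _ (toF_mem hS))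
    rw [h0] at h1
    simp at h1
  · rw [h]
    rintro rfl
    exact he.wf.ne hc

private theorem leafA2_lit {k M : ℕ} {e : EnvA} {s : KNd Wd} (he : EOk k e)
    (hs : KOk k M e.2.2 s) {c : List (Lit Wd)} (hc : c ∈ e.2.2.1) {l : Lit Wd}
    (hl : l ∈ ktcl s c) : l ∈ e.2.2.2 :=
  (kfam_can he.wf hs.can _ (ktcl_fam hc)).subset hl

private theorem leafA2_vio {n : ℕ} (hn : n ≠ 0) (z : List Bool) :
    vio n z = z.all (fun b => b) := by
  simp [vio, hn]

private theorem leafA2_mem1 {e : EnvA} {s : KNd Wd} {w : Wd} (hw : w ∈ e.1) :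
    ((0, [w]) : ℕ × List Wd) ∈ consA e s :=
  List.mem_append_left _ (List.mem_map.2 ⟨w, mem_ded.2 hw, rfl⟩)

private theorem leafA2_mem2 {e : EnvA} {s : KNd Wd} {c : List (Lit Wd)} (hc : c ∈ e.2.2.1) :
    (((ktcl s c).length, (ktcl s c).map (fun l => l.2)) : ℕ × List Wd) ∈ consA e s :=
  List.mem_append_right _ (List.mem_map.2
    ⟨ktcl s c, mem_ded.2 (List.mem_map.2 ⟨c, hc, rfl⟩), rfl⟩)

private theorem leafA2_fst {F : List (ℕ × List Wd)} {b : Wd → Bool} {r : ℕ × List Wd}
    (hr : r ∈ F) (hv : vio r.1 (r.2.map b) = true) : r.2.headD default ∈ ded (fst0 F b) := by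
  rw [mem_ded]
  unfold fst0
  exact List.mem_map.2 ⟨r, List.mem_filter.2 ⟨hr, hv⟩, rfl⟩

theorem q_leafA : S_leafA := by
  intro k M e s hk hM he hs hkrc
  refine ⟨?_, ?_, ?_, ?_⟩
  · rcases krc_ok hk hM he.wf hs with ⟨_, h⟩ | ⟨l, r, h, _⟩
    · have h1 := ktypes_le hM he.wf hs h
      have h2 := Nat.mul_le_mul_left (k * M ^ (k - 1)) he.num
      have h3 : (consA e s).length =
          (ded e.1).length + (ded (e.2.2.1.map (fun c => ktcl s c))).length := by
        unfold consA
        rw [List.length_append, List.length_map, List.length_map]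
      rw [h3, Nat.add_mul, Nat.one_mul]
      exact Nat.add_le_add_left (h1.trans h2) _
    · rw [hkrc] at h
      cases h
  · intro r hr
    rcases List.mem_append.1 hr with hr | hr
    · obtain ⟨w, _, rfl⟩ := List.mem_map.1 hr
      exact Or.inl ⟨rfl, rfl⟩
    · obtain ⟨c', hc', rfl⟩ := List.mem_map.1 hr
      obtain ⟨c, hc, rfl⟩ := List.mem_map.1 (mem_ded.1 hc')
      refine Or.inr ⟨?_, ?_, ktcl_length he.wf hs hc⟩
      · simp only [List.length_map]
      · exact List.length_pos_iff.2 (leafA2_ne he hs hc)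
  · intro b
    constructor
    · unfold hitsA
      rw [List.all_eq_true]
      intro t ht
      unfold hitB
      rw [List.any_eq_true]
      obtain ⟨c, hc, hct⟩ := he.cl t ht
      by_cases hb : ∀ l ∈ ktcl s c, b l.2 = true
      · rcases hcc : ktcl s c with _ | ⟨l₀, r⟩
        · exact absurd hcc (leafA2_ne he hs hc)
        have hl₀ : l₀ ∈ ktcl s c := by rw [hcc]; exact List.mem_cons_self
        refine ⟨l₀.2, hct _ (ktcl_sub _ hl₀), decide_eq_true ?_⟩
        have h1 := leafA2_fst (b := b) (leafA2_mem2 (s := s) hc) (by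
          rw [leafA2_vio (by
            have := List.length_pos_iff.2 (leafA2_ne he hs hc)
            omega), List.all_eq_true]
          intro x hx
          rw [List.map_map, List.mem_map] at hx
          obtain ⟨l, hl, rfl⟩ := hx
          exact hb l hl)
        rw [hcc] at h1
        exact h1
      · push Not at hb
        obtain ⟨l, hl, hbl⟩ := hb
        refine ⟨l.2, hct _ (ktcl_sub _ hl), decide_eq_true ?_⟩
        have h1 := leafA2_fst (b := b)
          (leafA2_mem1 (s := s) (he.pos l (leafA2_lit he hs hc hl)).2) (by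
            have h2 : b l.2 = false := by simpa using hbl
            simp [vio, h2])
        exact h1
    · have h1 : (ded (fst0 (consA e s) b)).length ≤ (fst0 (consA e s) b).length :=
        nodup_length_le (nodup_ded _) fun x hx => mem_ded.1 hx
      refine h1.trans (le_of_eq ?_)
      unfold fst0
      rw [List.length_map, List.countP_eq_length_filter]
  · intro a h2 h1
    unfold consA
    rw [List.countP_append, List.countP_map]
    have e1 : (ded e.1).countP ((fun r : ℕ × List Wd => vio r.1 (r.2.map (fun w => !(a w)))) ∘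
        (fun w : Wd => (0, [w]))) = ((ded e.1).filter a).length := by
      rw [← List.countP_eq_length_filter]
      refine List.countP_congr fun w _ => ?_
      simp [vio]
    have e2 : ((ded (e.2.2.1.map (fun c => ktcl s c))).map
        (fun c : List (Lit Wd) => ((c.length, c.map (fun l => l.2)) : ℕ × List Wd))).countP
        (fun r : ℕ × List Wd => vio r.1 (r.2.map (fun w => !(a w)))) = 0 := by
      rw [List.countP_eq_zero]
      intro r hr hv
      obtain ⟨c', hc', rfl⟩ := List.mem_map.1 hr
      obtain ⟨c, hc, rfl⟩ := List.mem_map.1 (mem_ded.1 hc')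
      rw [leafA2_vio (by
        have := List.length_pos_iff.2 (leafA2_ne he hs hc)
        simp only
        omega), List.all_eq_true] at hv
      obtain ⟨l, hl, htr⟩ := ktcl_sat (he.sat a h1) h2 hc
      have h3 := (he.pos l (leafA2_lit he hs hc hl)).1
      have h4 : a l.2 = true := by
        rw [← h3]
        exact htr
      have h5 := hv (!(a l.2)) (List.mem_map.2 ⟨l.2, List.mem_map.2 ⟨l, hl, rfl⟩, rfl⟩)
      rw [h4] at h5
      simp at h5
    rw [e1, e2, Nat.add_zero]

end Pool.Agent.Lib.MP_87d05f_lc.ND
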