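import Pool.Agent.Lib.MP_87d05f_lc.ND.Stm2
import Pool.Agent.Lib.MP_87d05f_lc.ND.P.ptI
import Pool.Agent.Lib.MP_87d05f_lc.ND.P.ptO

set_option autoImplicit false

/-!
Piece ptE: everything is computable in polynomial time.
-/

namespace Pool.Agent.Lib.MP_87d05f_lc.ND

open Pool.Agent.PolyTime Function Turing

section ptE2

variable {α : Type} [SCode α]

theorem ptE2_hitB {S t : α → List Wd} (hS : PTime S) (ht : PTime t) :
    PTime (fun a => hitB (S a) (t a)) := by
  unfold hitB
  refine PTime.any (p := fun a w => decide (w ∈ S a)) ht ?_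
  exact mem_ptime PTime.snd (hS.comp PTime.fst)

theorem ptE2_hitsA {K : α → List (List Wd)} {S : α → List Wd} (hK : PTime K) (hS : PTime S) :
    PTime (fun a => hitsA (K a) (S a)) := by
  unfold hitsA
  refine PTime.all (p := fun a t => hitB (S a) t) hK ?_
  exact ptE2_hitB (hS.comp PTime.fst) PTime.snd

theorem ptE2_brS {S t : α → List Wd} {n : α → ℕ} (hS : PTime S) (ht : PTime t) (hn : PTime n) :
    PTime (fun a => brS (S a) (t a) (n a)) := by
  unfold brS
  refine PTime.list_casesOn (f := t) (g := fun _ => (none : Option (SNd × SNd)))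
    (h := fun a w r => some ((w :: S a, (none, n a - 1)), (S a, (some r, n a)))) ht
    (PTime.const none) ?_
  have h1 : PTime (fun x : α × Wd × List Wd => S x.1) := hS.comp PTime.fst
  have h2 : PTime (fun x : α × Wd × List Wd => n x.1) := hn.comp PTime.fst
  exact PTime.some (PTime.pair (PTime.pair (PTime.cons (PTime.fst.comp PTime.snd) h1)
    (PTime.pair (PTime.const none) (PTime.pred h2)))
    (PTime.pair h1 (PTime.pair (PTime.some (PTime.snd.comp PTime.snd)) h2)))

theorem ptE2_expS {K : α → List (List Wd)} {s : α → SNd} (hK : PTime K) (hs : PTime s) :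
    PTime (fun a => expS (K a) (s a)) := by
  unfold expS
  have hS : PTime (fun a => (s a).1) := PTime.fst.comp hs
  have ho : PTime (fun a => (s a).2.1) := PTime.fst.comp (PTime.snd.comp hs)
  have hn : PTime (fun a => (s a).2.2) := PTime.snd.comp (PTime.snd.comp hs)
  refine PTime.cond (PTime.isZero hn) (PTime.const none) ?_
  have hb : PTime (fun x : α × List Wd => brS (s x.1).1 x.2 (s x.1).2.2) :=
    ptE2_brS (hS.comp PTime.fst) PTime.snd (hn.comp PTime.fst)
  refine PTime.option_casesOn (f := fun a => (s a).2.1)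
    (g := fun a => (Option.casesOn ((K a).find? (fun t => !(hitB (s a).1 t))) none
      (fun t => brS (s a).1 t (s a).2.2) : Option (SNd × SNd)))
    (h := fun a t => brS (s a).1 t (s a).2.2) ho ?_ hb
  refine PTime.option_casesOn (f := fun a => (K a).find? (fun t => !(hitB (s a).1 t)))
    (g := fun _ => (none : Option (SNd × SNd)))
    (h := fun a t => brS (s a).1 t (s a).2.2) ?_ (PTime.const none) hb
  refine PTime.find? (p := fun a t => !(hitB (s a).1 t)) hK ?_
  exact PTime.not (ptE2_hitB (hS.comp PTime.fst) PTime.snd)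

theorem ptE2_consA {e : α → EnvA} {s : α → KNd Wd} (he : PTime e) (hs : PTime s) :
    PTime (fun a => consA (e a) (s a)) := by
  unfold consA
  have h1 : PTime (fun a => ded (e a).1) := ded_ptime (PTime.fst.comp he)
  have h2 : PTime (fun a => (e a).2.2.1.map (fun c => ktcl (s a) c)) := by
    refine PTime.map (f := fun a c => ktcl (s a) c)
      (PTime.fst.comp (PTime.snd.comp (PTime.snd.comp he))) ?_
    exact ktcl_ptime (hs.comp PTime.fst) PTime.snd
  refine PTime.append ?_ ?_
  · refine PTime.map (f := fun _ w => ((0, [w]) : ℕ × List Wd)) h1 ?_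
    exact PTime.pair (PTime.const 0) (PTime.cons PTime.snd (PTime.const []))
  · refine PTime.map (f := fun _ (c : List (Lit Wd)) =>
      ((c.length, c.map (fun l => l.2)) : ℕ × List Wd)) (ded_ptime h2) ?_
    refine PTime.pair (PTime.length PTime.snd) ?_
    exact PTime.map (f := fun _ (l : Lit Wd) => l.2) PTime.snd (PTime.snd.comp PTime.snd)

theorem ptE2_insA {e : α → EnvA} {s : α → KNd Wd} (he : PTime e) (hs : PTime s) :
    PTime (fun a => insA (e a) (s a)) := by
  unfold insA
  refine PTime.map (f := fun _ c => ((0, c) : ℕ × (ℕ × List Wd))) (ptE2_consA he hs) ?_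
  exact PTime.pair (PTime.const 0) PTime.snd

theorem ptE2_enc (k : ℕ) {e : α → EnvA} {s : α → KNd Wd} (he : PTime e) (hs : PTime s) :
    PTime (fun a => encW ((insA (e a) (s a)).map (conW k))) := by
  refine encW_ptime (G := fun a => (insA (e a) (s a)).map (conW k)) ?_
  refine PTime.map (f := fun _ r => conW k r) (ptE2_insA he hs) ?_
  exact (ptI_conW k).comp PTime.snd

theorem ptE2_qryA (k C d b' : ℕ) {e : α → EnvA} {s : α → KNd Wd} (he : PTime e) (hs : PTime s) :
    PTime (fun a => qryA k C d b' (e a) (s a)) := by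
  unfold qryA
  have h := ptE2_enc k he hs
  exact PTime.pair h (PTime.pair (PTime.mul (PTime.const C)
    (PTime.natPow_const (PTime.succ (PTime.length h)) d))
    (mydiv_ptime (PTime.length (ptE2_insA he hs)) (PTime.const b')))

theorem ptE2_expA (k M B C d b' : ℕ) : PTime (fun y : EnvA × NdA => expA k M B C d b' y.1 y.2) := by
  unfold expA
  refine PTime.option_casesOn (f := fun y : EnvA × NdA => y.2)
    (g := fun y => (Sum.inr (some (Sum.inl []), some (Sum.inr ([], (none,
      mydiv (ded y.1.1).length B)))) : Qry ⊕ (NdA × NdA)))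
    (h := fun y u => Sum.elim
      (fun s => (Option.casesOn (krc M y.1.2.2 s k) (Sum.inl (qryA k C d b' y.1 s))
        (fun r => Sum.inr (some (Sum.inl r.1), some (Sum.inl r.2))) : Qry ⊕ (NdA × NdA)))
      (fun s => (Option.casesOn (expS y.1.2.1 s) (Sum.inl ([], (0, 0)))
        (fun r => Sum.inr (some (Sum.inr r.1), some (Sum.inr r.2))) : Qry ⊕ (NdA × NdA))) u)
    PTime.snd ?_ ?_
  · exact PTime.inr (PTime.pair (PTime.const _) (PTime.some (PTime.inr (PTime.pair (PTime.const _)
      (PTime.pair (PTime.const _) (mydiv_ptime (PTime.length (ded_ptime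
        (PTime.fst.comp PTime.fst))) (PTime.const B)))))))
  · refine PTime.sum_elim (f := fun x : (EnvA × NdA) × (KNd Wd ⊕ SNd) => x.2)
      (g := fun x s => (Option.casesOn (krc M x.1.1.2.2 s k) (Sum.inl (qryA k C d b' x.1.1 s))
        (fun r => Sum.inr (some (Sum.inl r.1), some (Sum.inl r.2))) : Qry ⊕ (NdA × NdA)))
      (h := fun x s => (Option.casesOn (expS x.1.1.2.1 s) (Sum.inl ([], (0, 0)))
        (fun r => Sum.inr (some (Sum.inr r.1), some (Sum.inr r.2))) : Qry ⊕ (NdA × NdA)))
      PTime.snd ?_ ?_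
    · have he : PTime (fun p : ((EnvA × NdA) × (KNd Wd ⊕ SNd)) × KNd Wd => p.1.1.1) :=
        PTime.fst.comp (PTime.fst.comp PTime.fst)
      refine PTime.option_casesOn
        (f := fun p : ((EnvA × NdA) × (KNd Wd ⊕ SNd)) × KNd Wd => krc M p.1.1.1.2.2 p.2 k)
        (g := fun p => (Sum.inl (qryA k C d b' p.1.1.1 p.2) : Qry ⊕ (NdA × NdA)))
        (h := fun _ r => (Sum.inr (some (Sum.inl r.1), some (Sum.inl r.2)) : Qry ⊕ (NdA × NdA)))
        (krc_ptime M k (PTime.snd.comp (PTime.snd.comp he)) PTime.snd)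
        (PTime.inl (ptE2_qryA k C d b' he PTime.snd)) ?_
      exact PTime.inr (PTime.pair (PTime.some (PTime.inl (PTime.fst.comp PTime.snd)))
        (PTime.some (PTime.inl (PTime.snd.comp PTime.snd))))
    · have he : PTime (fun p : ((EnvA × NdA) × (KNd Wd ⊕ SNd)) × SNd => p.1.1.1) :=
        PTime.fst.comp (PTime.fst.comp PTime.fst)
      refine PTime.option_casesOn
        (f := fun p : ((EnvA × NdA) × (KNd Wd ⊕ SNd)) × SNd => expS p.1.1.1.2.1 p.2)
        (g := fun _ => (Sum.inl ([], (0, 0)) : Qry ⊕ (NdA × NdA)))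
        (h := fun _ r => (Sum.inr (some (Sum.inr r.1), some (Sum.inr r.2)) : Qry ⊕ (NdA × NdA)))
        (ptE2_expS (PTime.fst.comp (PTime.snd.comp he)) PTime.snd) (PTime.const _) ?_
      exact PTime.inr (PTime.pair (PTime.some (PTime.inr (PTime.fst.comp PTime.snd)))
        (PTime.some (PTime.inr (PTime.snd.comp PTime.snd))))

theorem ptE2_candA {e : α → EnvA} {t : α → NdA} {w : α → List Bool} (he : PTime e) (ht : PTime t)
    (hw : PTime w) : PTime (fun a => candA (e a) (t a) (w a)) := by
  unfold candA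
  refine PTime.option_casesOn (f := t) (g := fun a => ded (e a).1)
    (h := fun a u => Sum.elim
      (fun s => ded (fstZ 0 (disV (insA (e a) s) (convV (w a))))) (fun s : SNd => s.1) u)
    ht (ded_ptime (PTime.fst.comp he)) ?_
  refine PTime.sum_elim (f := fun x : α × (KNd Wd ⊕ SNd) => x.2)
    (g := fun x s => ded (fstZ 0 (disV (insA (e x.1) s) (convV (w x.1)))))
    (h := fun _ s => s.1) PTime.snd ?_ (PTime.fst.comp PTime.snd)
  have he' : PTime (fun p : (α × (KNd Wd ⊕ SNd)) × KNd Wd => e p.1.1) :=
    he.comp (PTime.fst.comp PTime.fst)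
  have hw' : PTime (fun p : (α × (KNd Wd ⊕ SNd)) × KNd Wd => convV (w p.1.1)) :=
    convV_ptime.comp (hw.comp (PTime.fst.comp PTime.fst))
  exact ded_ptime (ptO_fstZ (PTime.const 0) (ptO_disV (ptE2_insA he' PTime.snd) hw'))

end ptE2

/-- ptE: everything is computable in polynomial time -/
theorem q_ptE : S_ptE := by
  intro hC hI
  have hedW : PTime edW := (hI [] 0 0).2.2.2
  have hcps : ∀ G : List FG, PTime (fun E : List (Wd × Wd) => cps G E) := hC.2.1
  have henv : ∀ FL : List FG, PTime (fun E : List (Wd × Wd) => envA FL E) := by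
    intro FL
    have h1 : PTime (fun E : List (Wd × Wd) =>
        (cps FL E).map (fun t => t.map (fun w => ((true, w) : Lit Wd)))) := by
      refine PTime.map (f := fun _ (t : List Wd) => t.map (fun w => ((true, w) : Lit Wd)))
        (hcps FL) ?_
      exact PTime.map (f := fun _ w => ((true, w) : Lit Wd)) PTime.snd
        (PTime.pair (PTime.const true) PTime.snd)
    exact PTime.pair (ptO_ends PTime.id) (PTime.pair (hcps FL) (mkK_ptime h1))
  have henv2 : ∀ FL : List FG, PTime (fun x : List Bool => envA FL (edW x)) :=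
    fun FL => (henv FL).comp hedW
  refine ⟨fun FL => ⟨?_, henv2 FL⟩, fun k M B C d b' => ptE2_expA k M B C d b',
    fun k => ptE2_enc k PTime.fst PTime.snd, ?_, ?_, ?_⟩
  · exact PTime.pair (henv2 FL) (PTime.pair (PTime.const none) (ded_ptime (ptO_ends hedW)))
  · exact ptE2_candA (PTime.fst.comp PTime.fst) (PTime.snd.comp PTime.fst) PTime.snd
  · unfold updA
    have hc : PTime (fun y : (EnvA × NdA) × (List Bool × List Wd) =>
        candA y.1.1 y.1.2 y.2.1) :=
      ptE2_candA (PTime.fst.comp PTime.fst) (PTime.snd.comp PTime.fst) (PTime.fst.comp PTime.snd)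
    have hb : PTime (fun y : (EnvA × NdA) × (List Bool × List Wd) => y.2.2) :=
      PTime.snd.comp PTime.snd
    exact PTime.cond (PTime.and (PTime.nat_lt (PTime.length hc) (PTime.length hb))
      (ptE2_hitsA (PTime.fst.comp (PTime.snd.comp (PTime.fst.comp PTime.fst))) hc)) hc hb
  · unfold outA
    refine PTime.map (f := fun (y : EnvA × List Wd) v => decide (v ∈ y.2))
      (PTime.fst.comp PTime.fst) ?_
    exact mem_ptime PTime.snd (PTime.snd.comp PTime.fst)

end Pool.Agent.Lib.MP_87d05f_lc.ND
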