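import Pool.Agent.Lib.MP_87d05f_lc.ND.Stm2

set_option autoImplicit false

/-!
# Vertex deletion problems on all graphs: sizes of the nodes
-/

namespace Pool.Agent.Lib.MP_87d05f_lc.ND

open Pool.Agent.PolyTime Function Turing

/-- the bound -/
def size2_f (a k L : ℕ) : ℕ := a * (L * (L + 1)) + L * (L + 1) + k * (L + 1) + 2 * L + 20

theorem size2_polyB (a k : ℕ) : PolyB (size2_f a k) := by
  have h1 : PolyB (fun L : ℕ => L + 1) := PolyB.id.add (PolyB.const 1)
  have h2 : PolyB (fun L : ℕ => L * (L + 1)) := PolyB.id.mul h1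
  have h3 := (((((PolyB.const a).mul h2).add h2).add ((PolyB.const k).mul h1)).add
    ((PolyB.const 2).mul PolyB.id)).add (PolyB.const 20)
  exact h3

theorem size2_mono (a k : ℕ) : Monotone (size2_f a k) := by
  intro L L' h
  have h1 : L * (L + 1) ≤ L' * (L' + 1) := Nat.mul_le_mul h (by omega)
  have h2 : a * (L * (L + 1)) ≤ a * (L' * (L' + 1)) := Nat.mul_le_mul_left _ h1
  have h3 : k * (L + 1) ≤ k * (L' + 1) := Nat.mul_le_mul_left _ (by omega)
  unfold size2_f
  omega

theorem q_size : S_size := by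
  intro k M hk hM
  refine ⟨size2_f (3 ^ (k - 1) * M ^ (k - 2)) k, size2_polyB _ _, size2_mono _ _, ?_⟩
  intro e N L t he hinv hN hL
  obtain ⟨e1, e2, e3⟩ := e
  have hsz : sz (e1, (e2, e3)) = sz e1 + (sz e2 + sz e3 + 1) + 1 := rfl
  rw [hsz] at hL
  have hL1 : sz e1 ≤ L := by omega
  have hL3 : sz e3 ≤ L := by omega
  unfold size2_f
  rcases t with _ | s | ⟨S, o, n⟩
  · rw [sz_none]
    omega
  · have h1 := sz_knode_le hk hM he.wf.nd hinv L hL3
    rw [sz_some, sz_inl]
    have h2 : 3 ^ (k - 1) * M ^ (k - 2) * L * (L + 1) =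
        3 ^ (k - 1) * M ^ (k - 2) * (L * (L + 1)) := by ring
    rw [h2] at h1
    omega
  · obtain ⟨i1, i2, i3⟩ := hinv
    simp only at i1 i2 i3
    have h1 : sz S ≤ S.length * (L + 1) + 1 :=
      sz_list_le S L (fun w hw => by
        have := sz_le_of_mem (i2 w hw)
        omega)
    have h2 : S.length * (L + 1) ≤ L * (L + 1) := Nat.mul_le_mul_right _ (by omega)
    have h3 : sz o ≤ k * (L + 1) + 3 := by
      rcases o with _ | r
      · rw [sz_none]
        omega
      · obtain ⟨j1, j2⟩ := i3 r rfl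
        have h4 : sz r ≤ r.length * (L + 1) + 1 :=
          sz_list_le r L (fun w hw => by
            have := sz_le_of_mem (j2 w hw)
            omega)
        have h5 : r.length * (L + 1) ≤ k * (L + 1) := Nat.mul_le_mul_right _ j1
        rw [sz_some]
        omega
    rw [sz_some, sz_inr, sz_pair, sz_pair, sz_nat]
    omega

end Pool.Agent.Lib.MP_87d05f_lc.ND
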