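import Pool.Agent.Lib.MP_87d05f_lc.ND.Stm2

set_option autoImplicit false

/-!
# Vertex deletion on all graphs: correctness of the bounded search tree
-/

namespace Pool.Agent.Lib.MP_87d05f_lc.ND

open Pool.Agent.PolyTime Function Turing

/-- good nodes of the bounded search tree -/
structure small2_G (A : Finset Wd) (S : List Wd) (n : ℕ) : Prop where
  sub : ∀ w ∈ S, w ∈ A
  len : S.length + (A \ S.toFinset).card ≤ A.card
  num : (A \ S.toFinset).card ≤ n

/-- the vertex node `u` is a leaf as required -/
def small2_L (ex : NdA → Qry ⊕ (NdA × NdA)) (K : List (List Wd)) (A : Finset Wd) (u : SNd) :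
    Prop :=
  ex (some (Sum.inr u)) = Sum.inl ([], (0, 0)) ∧ hitsA K u.1 = true ∧ u.1.length ≤ A.card

theorem small2_hit {K : List (List Wd)} {A : Finset Wd} (hA : ∀ t ∈ K, ∃ w ∈ t, w ∈ A)
    {S : List Wd} (h : (A \ S.toFinset).card = 0) : hitsA K S = true := by
  unfold hitsA hitB
  rw [List.all_eq_true]
  intro t ht
  rw [List.any_eq_true]
  obtain ⟨w, hw, hwA⟩ := hA t ht
  refine ⟨w, hw, ?_⟩
  rw [decide_eq_true_eq]
  by_contra hS
  have h1 : w ∈ A \ S.toFinset := Finset.mem_sdiff.2 ⟨hwA, fun h2 => hS (List.mem_toFinset.1 h2)⟩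
  rw [Finset.card_eq_zero.1 h] at h1
  exact absurd h1 (Finset.notMem_empty w)

/-- choosing an element of the solution -/
theorem small2_add {A : Finset Wd} {S : List Wd} {n : ℕ} (h : small2_G A S (n + 1)) {w : Wd}
    (hw : w ∈ A \ S.toFinset) : small2_G A (w :: S) n := by
  have hwA := (Finset.mem_sdiff.1 hw).1
  have h1 : A \ (w :: S).toFinset = (A \ S.toFinset).erase w := by
    ext x
    simp only [Finset.mem_sdiff, List.toFinset_cons, Finset.mem_insert, List.mem_toFinset,
      Finset.mem_erase]
    tauto
  have h2 : (A \ (w :: S).toFinset).card + 1 = (A \ S.toFinset).card := by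
    rw [h1]
    exact Finset.card_erase_add_one hw
  refine ⟨?_, ?_, ?_⟩
  · intro x hx
    rcases List.mem_cons.1 hx with rfl | hx
    · exact hwA
    · exact h.sub x hx
  · have h3 := h.len
    rw [List.length_cons]
    omega
  · have h3 := h.num
    omega

theorem small2_ex (k M B C d b' : ℕ) (e : EnvA) (S : List Wd) (o : Option (List Wd)) (n : ℕ) :
    expA k M B C d b' e (some (Sum.inr (S, (o, n)))) =
      (Option.casesOn (expS e.2.1 (S, (o, n))) (Sum.inl ([], (0, 0)))
        (fun r => Sum.inr (some (Sum.inr r.1), some (Sum.inr r.2))) : Qry ⊕ (NdA × NdA)) := rfl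

theorem small2_expS_zero (K : List (List Wd)) (S : List Wd) (o : Option (List Wd)) :
    expS K (S, (o, 0)) = none := rfl

theorem small2_expS_some (K : List (List Wd)) (S : List Wd) (r : List Wd) (n : ℕ) :
    expS K (S, (some r, n + 1)) = brS S r (n + 1) := rfl

theorem small2_expS_none (K : List (List Wd)) (S : List Wd) (n : ℕ) :
    expS K (S, (none, n + 1)) = (Option.casesOn (K.find? (fun t => !(hitB S t))) none
      (fun t => brS S t (n + 1)) : Option (SNd × SNd)) := rfl

/-- branching on the options of a copy -/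
theorem small2_br (k M B C d b' : ℕ) (e : EnvA) (A : Finset Wd) (n : ℕ)
    (ih : ∀ S : List Wd, small2_G A S n → ∃ u : SNd,
      Rch (expA k M B C d b' e) (some (Sum.inr (S, (none, n)))) (some (Sum.inr u)) ∧
        small2_L (expA k M B C d b' e) e.2.1 A u)
    (S : List Wd) (hS : small2_G A S (n + 1)) (r : List Wd)
    (hr : ∃ w ∈ r, w ∈ A \ S.toFinset) :
    ∃ x y : SNd, brS S r (n + 1) = some (x, y) ∧ ∃ u : SNd,
      (Rch (expA k M B C d b' e) (some (Sum.inr x)) (some (Sum.inr u)) ∨
        Rch (expA k M B C d b' e) (some (Sum.inr y)) (some (Sum.inr u))) ∧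
      small2_L (expA k M B C d b' e) e.2.1 A u := by
  induction r with
  | nil =>
    obtain ⟨w, hw, _⟩ := hr
    exact absurd hw List.not_mem_nil
  | cons w r ihr =>
    refine ⟨(w :: S, (none, n)), (S, (some r, n + 1)), rfl, ?_⟩
    by_cases hw : w ∈ A \ S.toFinset
    · obtain ⟨u, hu, hL⟩ := ih (w :: S) (small2_add hS hw)
      exact ⟨u, Or.inl hu, hL⟩
    · have hr' : ∃ w ∈ r, w ∈ A \ S.toFinset := by
        obtain ⟨w', hw', hwA⟩ := hr
        rcases List.mem_cons.1 hw' with rfl | h
        · exact absurd hwA hw
        · exact ⟨w', h, hwA⟩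
      obtain ⟨x, y, hxy, u, hu, hL⟩ := ihr hr'
      have hex : expA k M B C d b' e (some (Sum.inr (S, (some r, n + 1)))) =
          Sum.inr (some (Sum.inr x), some (Sum.inr y)) := by
        rw [small2_ex, small2_expS_some, hxy]
      refine ⟨u, Or.inr ?_, hL⟩
      rcases hu with hu | hu
      · exact Rch.left hex hu
      · exact Rch.right hex hu

theorem q_small : S_small := by
  intro k M B C d b' e A n hn hA
  have key : ∀ (n : ℕ) (S : List Wd), small2_G A S n → ∃ u : SNd,
      Rch (expA k M B C d b' e) (some (Sum.inr (S, (none, n)))) (some (Sum.inr u)) ∧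
        small2_L (expA k M B C d b' e) e.2.1 A u := by
    intro n
    induction n with
    | zero =>
      intro S hS
      have h0 : (A \ S.toFinset).card = 0 := Nat.le_zero.1 hS.num
      refine ⟨(S, (none, 0)), Rch.refl _, ?_, small2_hit hA h0, ?_⟩
      · rw [small2_ex, small2_expS_zero]
      · have h1 := hS.len
        rw [h0] at h1
        exact h1
    | succ n ih =>
      intro S hS
      rcases hf : e.2.1.find? (fun t => !(hitB S t)) with _ | t
      · refine ⟨(S, (none, n + 1)), Rch.refl _, ?_, ?_, ?_⟩
        · rw [small2_ex, small2_expS_none, hf]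
        · unfold hitsA
          rw [List.all_eq_true]
          intro t ht
          have h1 := List.find?_eq_none.1 hf t ht
          simpa using h1
        · have h1 := hS.len
          show S.length ≤ A.card
          omega
      · have ht : t ∈ e.2.1 := List.mem_of_find?_eq_some hf
        have hnh : hitB S t = false := by simpa using List.find?_some hf
        obtain ⟨w, hw, hwA⟩ := hA t ht
        have hwS : w ∉ S := by
          intro h1
          have h2 : hitB S t = true := by
            unfold hitB
            rw [List.any_eq_true]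
            exact ⟨w, hw, decide_eq_true h1⟩
          rw [h2] at hnh
          exact Bool.noConfusion hnh
        obtain ⟨x, y, hxy, u, hu, hL⟩ := small2_br k M B C d b' e A n ih S hS t
          ⟨w, hw, Finset.mem_sdiff.2 ⟨hwA, fun h => hwS (List.mem_toFinset.1 h)⟩⟩
        have hex : expA k M B C d b' e (some (Sum.inr (S, (none, n + 1)))) =
            Sum.inr (some (Sum.inr x), some (Sum.inr y)) := by
          rw [small2_ex, small2_expS_none, hf]
          show (Option.casesOn (brS S t (n + 1)) (Sum.inl ([], (0, 0)))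
            (fun r => Sum.inr (some (Sum.inr r.1), some (Sum.inr r.2))) :
              Qry ⊕ (NdA × NdA)) = _
          rw [hxy]
        refine ⟨u, ?_, hL⟩
        rcases hu with hu | hu
        · exact Rch.left hex hu
        · exact Rch.right hex hu
  obtain ⟨u, hu, h1, h2, h3⟩ := key n [] ⟨fun w hw => absurd hw List.not_mem_nil, by simp,
    by simpa using hn⟩
  exact ⟨u, hu, h1, h2, h3⟩

end Pool.Agent.Lib.MP_87d05f_lc.ND
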