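import Pool.Agent.Lib.MP_87d05f_lc.ND.Stm2

set_option autoImplicit false

/-!
# Vertex deletion on all graphs, piece [ND tree]: invariant, depth and weight of the search tree
-/

namespace Pool.Agent.Lib.MP_87d05f_lc.ND

open Pool.Agent.PolyTime Function Turing

theorem tree2_krc_none {k M B C d b' : ℕ} {e : EnvA} {s : KNd Wd} (h : krc M e.2.2 s k = none) :
    expA k M B C d b' e (some (Sum.inl s)) = Sum.inl (qryA k C d b' e s) := by
  show (Option.casesOn (krc M e.2.2 s k) (Sum.inl (qryA k C d b' e s))
        (fun r => Sum.inr (some (Sum.inl r.1), some (Sum.inl r.2))) : Qry ⊕ (NdA × NdA)) = _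
  rw [h]

theorem tree2_krc_some {k M B C d b' : ℕ} {e : EnvA} {s l r : KNd Wd}
    (h : krc M e.2.2 s k = some (l, r)) :
    expA k M B C d b' e (some (Sum.inl s)) = Sum.inr (some (Sum.inl l), some (Sum.inl r)) := by
  show (Option.casesOn (krc M e.2.2 s k) (Sum.inl (qryA k C d b' e s))
        (fun r => Sum.inr (some (Sum.inl r.1), some (Sum.inl r.2))) : Qry ⊕ (NdA × NdA)) = _
  rw [h]

theorem tree2_exp_none {k M B C d b' : ℕ} {e : EnvA} {s : SNd} (h : expS e.2.1 s = none) :
    expA k M B C d b' e (some (Sum.inr s)) = Sum.inl ([], (0, 0)) := by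
  show (Option.casesOn (expS e.2.1 s) (Sum.inl ([], (0, 0)))
        (fun r => Sum.inr (some (Sum.inr r.1), some (Sum.inr r.2))) : Qry ⊕ (NdA × NdA)) = _
  rw [h]

theorem tree2_exp_some {k M B C d b' : ℕ} {e : EnvA} {s l r : SNd}
    (h : expS e.2.1 s = some (l, r)) :
    expA k M B C d b' e (some (Sum.inr s)) = Sum.inr (some (Sum.inr l), some (Sum.inr r)) := by
  show (Option.casesOn (expS e.2.1 s) (Sum.inl ([], (0, 0)))
        (fun r => Sum.inr (some (Sum.inr r.1), some (Sum.inr r.2))) : Qry ⊕ (NdA × NdA)) = _
  rw [h]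

theorem tree2_expS_zero (K : List (List Wd)) (S : List Wd) (o : Option (List Wd)) :
    expS K (S, (o, 0)) = none := by
  simp [expS]

theorem tree2_expS_some (K : List (List Wd)) (S t : List Wd) (n : ℕ) :
    expS K (S, (some t, n + 1)) = brS S t (n + 1) := by
  simp [expS]

theorem tree2_expS_none {K : List (List Wd)} {S : List Wd} (n : ℕ)
    (h : K.find? (fun t => !(hitB S t)) = none) : expS K (S, (none, n + 1)) = none := by
  simp only [expS]
  rw [h]
  simp

theorem tree2_expS_find {K : List (List Wd)} {S t : List Wd} (n : ℕ)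
    (h : K.find? (fun t => !(hitB S t)) = some t) :
    expS K (S, (none, n + 1)) = brS S t (n + 1) := by
  simp only [expS]
  rw [h]
  simp

/-- the depth of the nodes without options -/
theorem tree2_dp_none (k : ℕ) (S : List Wd) (n : ℕ) : DpS k (S, (none, n)) = (k + 1) * n := by
  cases n with
  | zero => simp [DpS]
  | succ n => simp [DpS]

/-- the weight of the nodes without options -/
theorem tree2_wt_none (k : ℕ) (S : List Wd) (n : ℕ) : WtS k (S, (none, n)) = (2 * k + 2) ^ n := by
  cases n with
  | zero => simp [WtS]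
  | succ n => simp [WtS]

theorem tree2_wt_pos (k : ℕ) (s : SNd) : 1 ≤ WtS k s := by
  obtain ⟨S, o, n⟩ := s
  cases n with
  | zero => simp [WtS]
  | succ n =>
    cases o with
    | none =>
      rw [tree2_wt_none]
      exact Nat.one_le_pow _ _ (by omega)
    | some r => simp [WtS]

/-- the branching at a list of options -/
theorem tree2_br {k M : ℕ} {B C d b' : ℕ} {T : ℕ → ℕ} {e : EnvA} {N : ℕ} {S : List Wd}
    {o : Option (List Wd)} {n : ℕ} {w : Wd} {r : List Wd}
    (hex : expS e.2.1 (S, (o, n + 1)) = brS S (w :: r) (n + 1))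
    (h1 : S.length + (n + 1) ≤ N) (h2 : ∀ x ∈ S, x ∈ e.1) (hw : w ∈ e.1)
    (hr : r.length ≤ k ∧ ∀ x ∈ r, x ∈ e.1)
    (hd : (k + 1) * n + r.length + 1 ≤ DpS k (S, (o, n + 1)))
    (hW : 1 + (2 * k + 2) ^ n + (1 + r.length * (1 + (2 * k + 2) ^ n)) ≤
      WtS k (S, (o, n + 1))) :
    ∃ l r', expA k M B C d b' e (some (Sum.inr (S, (o, n + 1)))) = Sum.inr (l, r') ∧
      InvA k M e N l ∧ InvA k M e N r' ∧
      DpA k M e N l + 1 ≤ DpA k M e N (some (Sum.inr (S, (o, n + 1)))) ∧
      DpA k M e N r' + 1 ≤ DpA k M e N (some (Sum.inr (S, (o, n + 1)))) ∧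
      1 + WtA T k M e N l + WtA T k M e N r' ≤
        WtA T k M e N (some (Sum.inr (S, (o, n + 1)))) := by
  have hbr : brS S (w :: r) (n + 1) =
      some ((w :: S, (none, n)), (S, (some r, n + 1))) := by
    simp [brS]
  refine ⟨some (Sum.inr (w :: S, (none, n))), some (Sum.inr (S, (some r, n + 1))),
    tree2_exp_some (hex.trans hbr), ?_, ?_, ?_, ?_, ?_⟩
  · refine ⟨?_, ?_, ?_⟩
    · simp only [List.length_cons]
      omega
    · intro x hx
      rcases List.mem_cons.1 hx with rfl | hx
      · exact hw
      · exact h2 x hx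
    · intro r' hr'
      simp at hr'
  · refine ⟨h1, h2, ?_⟩
    intro r' hr'
    obtain rfl : r = r' := by simpa using hr'
    exact hr
  · show DpS k (w :: S, (none, n)) + 1 ≤ DpS k (S, (o, n + 1))
    rw [tree2_dp_none]
    omega
  · show DpS k (S, (some r, n + 1)) + 1 ≤ DpS k (S, (o, n + 1))
    have e1 : DpS k (S, (some r, n + 1)) = (k + 1) * n + r.length := rfl
    rw [e1]
    omega
  · show 1 + WtS k (w :: S, (none, n)) + WtS k (S, (some r, n + 1)) ≤ WtS k (S, (o, n + 1))
    have e1 : WtS k (S, (some r, n + 1)) = 1 + r.length * (1 + (2 * k + 2) ^ n) := rfl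
    rw [tree2_wt_none, e1]
    exact hW

theorem q_tree : S_tree := by
  intro k M B C d b' T hk hM hT1 hT e N he hN
  refine ⟨?_, ?_⟩
  · intro t
    rcases t with _ | (s | s)
    · show 1 ≤ 1 + T (KPot k M e.2.2 []) + (2 * k + 2) ^ N
      omega
    · exact hT1 _
    · exact tree2_wt_pos k s
  · intro t ht
    rcases t with _ | (s | s)
    · -- the root
      right
      right
      refine ⟨some (Sum.inl []), some (Sum.inr ([], (none, mydiv (ded e.1).length B))), rfl,
        kok_nil k M e.2.2, ?_, ?_, ?_, ?_⟩
      · refine ⟨?_, ?_, ?_⟩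
        · simp only [List.length_nil]
          omega
        · intro w hw
          simp at hw
        · intro r hr
          simp at hr
      · show KPot k M e.2.2 [] + 1 ≤ 1 + KPot k M e.2.2 [] + (k + 1) * N
        omega
      · show DpS k ([], (none, mydiv (ded e.1).length B)) + 1 ≤
          1 + KPot k M e.2.2 [] + (k + 1) * N
        rw [tree2_dp_none, hN]
        omega
      · show 1 + T (KPot k M e.2.2 []) + WtS k ([], (none, mydiv (ded e.1).length B)) ≤
          1 + T (KPot k M e.2.2 []) + (2 * k + 2) ^ N
        rw [tree2_wt_none, hN]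
    · -- the sparsification tree
      have hs : KOk k M e.2.2 s := ht
      rcases krc_ok hk hM he.wf hs with ⟨h, -⟩ | ⟨l, r, h, hl, hr, hpl, hpr⟩
      · exact Or.inl ⟨s, rfl, hs, h, tree2_krc_none h⟩
      · right
        right
        have hMk : 1 ≤ M ^ (k - 1) := Nat.one_le_pow _ _ hM
        refine ⟨some (Sum.inl l), some (Sum.inl r), tree2_krc_some h, hl, hr, hpl, ?_,
          hT _ _ _ hpl hpr⟩
        show KPot k M e.2.2 r + 1 ≤ KPot k M e.2.2 s
        omega
    · -- the bounded search tree
      obtain ⟨S, o, n⟩ := s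
      obtain ⟨h1, h2, h3⟩ := ht
      simp only at h1 h2 h3
      cases n with
      | zero => exact Or.inr (Or.inl ⟨⟨_, rfl⟩, tree2_exp_none (tree2_expS_zero _ _ _)⟩)
      | succ n =>
        cases o with
        | some t =>
          obtain ⟨ht1, ht2⟩ := h3 t rfl
          cases t with
          | nil =>
            exact Or.inr (Or.inl ⟨⟨_, rfl⟩, tree2_exp_none
              ((tree2_expS_some _ _ _ _).trans (by simp [brS]))⟩)
          | cons w r =>
            right
            right
            refine tree2_br (tree2_expS_some _ _ _ _) h1 h2 (ht2 w (by simp)) ⟨?_, ?_⟩ ?_ ?_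
            · simp only [List.length_cons] at ht1
              omega
            · exact fun x hx => ht2 x (List.mem_cons_of_mem _ hx)
            · show (k + 1) * n + r.length + 1 ≤ (k + 1) * n + (w :: r).length
              simp only [List.length_cons]
              omega
            · show _ ≤ 1 + (w :: r).length * (1 + (2 * k + 2) ^ n)
              simp only [List.length_cons]
              have : (r.length + 1) * (1 + (2 * k + 2) ^ n) =
                r.length * (1 + (2 * k + 2) ^ n) + (1 + (2 * k + 2) ^ n) := by ring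
              omega
        | none =>
          rcases hf : e.2.1.find? (fun t => !(hitB S t)) with _ | t
          · exact Or.inr (Or.inl ⟨⟨_, rfl⟩, tree2_exp_none (tree2_expS_none n hf)⟩)
          · have hmem : t ∈ e.2.1 := List.mem_of_find?_eq_some hf
            obtain ⟨l1, l2, l3⟩ := he.len t hmem
            cases t with
            | nil => simp at l1
            | cons w r =>
              right
              right
              simp only [List.length_cons] at l1 l2
              refine tree2_br (tree2_expS_find n hf) h1 h2 (l3 w (by simp)) ⟨by omega, ?_⟩ ?_ ?_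
              · exact fun x hx => l3 x (List.mem_cons_of_mem _ hx)
              · rw [tree2_dp_none]
                have : (k + 1) * (n + 1) = (k + 1) * n + (k + 1) := by ring
                omega
              · rw [tree2_wt_none]
                have hX : 1 ≤ (2 * k + 2) ^ n := Nat.one_le_pow _ _ (by omega)
                set X := (2 * k + 2) ^ n with hXd
                have e1 : (2 * k + 2) ^ (n + 1) = X * (2 * k + 2) := by rw [pow_succ]
                have e2 : r.length * (1 + X) ≤ (k - 1) * (1 + X) :=
                  Nat.mul_le_mul_right _ (by omega)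
                obtain ⟨k', rfl⟩ : ∃ k', k = k' + 1 := ⟨k - 1, by omega⟩
                rw [e1]
                simp only [Nat.add_sub_cancel] at e2
                nlinarith

end Pool.Agent.Lib.MP_87d05f_lc.ND
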