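import Pool.Agent.Lib.MP_87d05f_lc.ND.Stm2

set_option autoImplicit false

namespace Pool.Agent.Lib.MP_87d05f_lc.ND

open Pool.Agent.PolyTime Function Turing

private theorem best2_rch_leaf {τ : Type} {ex : τ → Qry ⊕ (τ × τ)} {t u : τ} {q : Qry}
    (h : Rch ex t u) (ht : ex t = Sum.inl q) : u = t := by
  cases h with
  | refl => rfl
  | left h1 _ => rw [ht] at h1; exact absurd h1 (by simp)
  | right h1 _ => rw [ht] at h1; exact absurd h1 (by simp)

private theorem best2_upd (e : EnvA) (t : NdA) (w : List Bool) (β : List Wd) :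
    (hitsA e.2.1 β = true → hitsA e.2.1 (updA e t w β) = true) ∧
    (updA e t w β).length ≤ β.length ∧
    (hitsA e.2.1 (candA e t w) = true → (updA e t w β).length ≤ (candA e t w).length) := by
  unfold updA
  rcases h : (decide ((candA e t w).length < β.length) && hitsA e.2.1 (candA e t w)) with _ | _
  · simp only [cond_false]
    refine ⟨fun h1 => h1, le_rfl, fun h1 => ?_⟩
    rw [h1, Bool.and_true, decide_eq_false_iff_not] at h
    omega
  · simp only [cond_true]
    rw [Bool.and_eq_true, decide_eq_true_eq] at h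
    exact ⟨fun _ => h.2, h.1.le, fun _ => le_rfl⟩

theorem q_best : S_best := by
  intro e ex an t β β' h
  induction h with
  | @leaf t q b hq =>
    obtain ⟨h1, h2, h3⟩ := best2_upd e t (an q) b
    refine ⟨h1, h2, ?_⟩
    intro u q' hr hu hh
    obtain rfl := best2_rch_leaf hr hq
    rw [hq] at hu
    obtain rfl : q = q' := Sum.inl.inj hu
    exact h3 hh
  | @node t l r b b1 b2 ht _ _ ih1 ih2 =>
    obtain ⟨a1, a2, a3⟩ := ih1
    obtain ⟨c1, c2, c3⟩ := ih2
    refine ⟨fun h0 => c1 (a1 h0), c2.trans a2, ?_⟩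
    intro u q hr hu hh
    cases hr with
    | refl =>
      rw [ht] at hu
      exact absurd hu (by simp)
    | left h1 h2 =>
      rw [ht] at h1
      simp only [Sum.inr.injEq, Prod.mk.injEq] at h1
      obtain ⟨rfl, rfl⟩ := h1
      exact c2.trans (a3 u q h2 hu hh)
    | right h1 h2 =>
      rw [ht] at h1
      simp only [Sum.inr.injEq, Prod.mk.injEq] at h1
      obtain ⟨rfl, rfl⟩ := h1
      exact c3 u q h2 hu hh

end Pool.Agent.Lib.MP_87d05f_lc.ND
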